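import Mathlib
import Pool.Agent.R584.QL

/-!
# MP_a1e9e0_gt, Q1: a strict quasi-Lindelöf space with `pwL_c > ℵ₀`

There is a `T₁` strict quasi-Lindelöf space whose piecewise weak Lindelöf degree for closed sets is
uncountable.
-/

open Set Topology

namespace Pool.Agent.Results.MP_a1e9e0_gt.StrictQuasiLindelofGap

universe u

/-- `Y` is strict quasi-Lindelöf: for every closed `F`, every sequence `𝒰 0, 𝒰 1, …` of families of
open sets that together cover `F` (a countable decomposition of the cover `⋃ n, 𝒰 n`), there are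
countable `𝒱 n ⊆ 𝒰 n` with `F ⊆ ⋃ n, closure (⋃₀ 𝒱 n)`. -/
def StrictQuasiLindelof (Y : Type u) [TopologicalSpace Y] : Prop :=
  ∀ F : Set Y, IsClosed F → ∀ 𝒰 : ℕ → Set (Set Y), (∀ n, ∀ U ∈ 𝒰 n, IsOpen U) →
    F ⊆ ⋃ n, ⋃₀ 𝒰 n →
    ∃ 𝒱 : ℕ → Set (Set Y), (∀ n, 𝒱 n ⊆ 𝒰 n ∧ (𝒱 n).Countable) ∧ F ⊆ ⋃ n, closure (⋃₀ 𝒱 n)

/-- The property defining `pwL_c(Y) ≤ κ`: for every closed `F` and every indexed family
`𝒰 i`, `i : ι`, of families of open sets that together cover `F` (a decomposition of the cover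
`⋃ i, 𝒰 i`, with index set of any size), there are `𝒱 i ⊆ 𝒰 i` of size at most `κ` with
`F ⊆ ⋃ i, closure (⋃₀ 𝒱 i)`. -/
def PwProperty (Y : Type u) [TopologicalSpace Y] (κ : Cardinal.{u}) : Prop :=
  ∀ F : Set Y, IsClosed F → ∀ (ι : Type u) (𝒰 : ι → Set (Set Y)), (∀ i, ∀ U ∈ 𝒰 i, IsOpen U) →
    F ⊆ ⋃ i, ⋃₀ 𝒰 i →
    ∃ 𝒱 : ι → Set (Set Y), (∀ i, 𝒱 i ⊆ 𝒰 i ∧ Cardinal.mk (𝒱 i) ≤ κ) ∧
      F ⊆ ⋃ i, closure (⋃₀ 𝒱 i)

/-- The piecewise weak Lindelöf degree for closed sets, `pwL_c(Y)`. -/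
noncomputable def pwLc (Y : Type u) [TopologicalSpace Y] : Cardinal.{u} :=
  sInf {κ | PwProperty Y κ}

theorem pwProperty_nonempty (Y : Type u) [TopologicalSpace Y] :
    {κ : Cardinal.{u} | PwProperty Y κ}.Nonempty := by
  refine ⟨Cardinal.mk (Set (Set Y)), ?_⟩
  intro F _ ι 𝒰 _ hcov
  refine ⟨𝒰, fun i => ⟨Subset.rfl, ?_⟩, hcov.trans (iUnion_mono fun i => subset_closure)⟩
  exact (Cardinal.mk_set_le (𝒰 i)).trans
    (Cardinal.mk_le_of_injective (f := fun s : Set Y => ({s} : Set (Set Y))) singleton_injective)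

theorem PwProperty.mono {Y : Type u} [TopologicalSpace Y] {κ μ : Cardinal.{u}}
    (h : PwProperty Y κ) (hle : κ ≤ μ) : PwProperty Y μ := by
  intro F hF ι 𝒰 hopen hcov
  obtain ⟨𝒱, h1, h2⟩ := h F hF ι 𝒰 hopen hcov
  exact ⟨𝒱, fun i => ⟨(h1 i).1, (h1 i).2.trans hle⟩, h2⟩

/-- There is a `T₁` strict quasi-Lindelöf space `X` with `pwL_c(X) > ℵ₀`. -/
theorem result : ∃ (X : Type) (_ : TopologicalSpace X),
    T1Space X ∧ StrictQuasiLindelof X ∧ Cardinal.aleph0 < pwLc X := by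
  refine ⟨Pool.Agent.R584.QL.X, inferInstance, inferInstance, ?_, ?_⟩
  · intro F hF 𝒰 hopen hcov
    obtain ⟨m, 𝒲, h1, h2, h3⟩ := Pool.Agent.R584.QL.strict_key hF hopen hcov
    exact Pool.Agent.R584.QL.cover_of_countable hcov h1 h2 h3
  · by_contra hle
    rw [not_lt] at hle
    have h1 : PwProperty Pool.Agent.R584.QL.X (pwLc Pool.Agent.R584.QL.X) :=
      csInf_mem (pwProperty_nonempty Pool.Agent.R584.QL.X)
    have h2 := h1.mono hle
    obtain ⟨𝒱, h3, h4⟩ := h2 (range Pool.Agent.R584.QL.pt) Pool.Agent.R584.QL.isClosed_range_pt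
      (List ℝ) (fun c => {U | ∃ x, Pool.Agent.R584.QL.adr x = c ∧ U = Pool.Agent.R584.QL.nb x})
      (by
        rintro c _ ⟨x, -, rfl⟩
        exact Pool.Agent.R584.QL.isOpen_nb x)
      (by
        rintro _ ⟨x, rfl⟩
        refine mem_iUnion.2 ⟨Pool.Agent.R584.QL.adr x, Pool.Agent.R584.QL.nb x, ⟨x, rfl, rfl⟩, ?_⟩
        exact Pool.Agent.R584.QL.pt_mem_nb.2 (Pool.Agent.R584.QL.Reach.refl x))
    refine Pool.Agent.R584.QL.not_refine 𝒱 (fun c => (h3 c).1) (fun c => ?_) h4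
    exact Cardinal.mk_le_aleph0_iff.1 (h3 c).2

end Pool.Agent.Results.MP_a1e9e0_gt.StrictQuasiLindelofGap
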